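import Pool.Agent.Helper52.NF.St2

/-!
# Project NF (MP_dd34a0_co), module LFU: choice of the nodes of degree 2.
-/

set_option autoImplicit false

namespace Pool.Agent.Helper4.NF

open Pool.Agent.Helper52.NF Finset

theorem hLFU : StLFU := by
  classical
  intro A B _ I T
  have key : ∀ p : {p // p ∈ P2 I T}, ∃ z : B, Dz I T z = p.1 := by
    rintro ⟨p, hp⟩
    obtain ⟨hp1, hp2⟩ := (@Finset.mem_filter _ _ (_) _ _).mp hp
    obtain ⟨hp3, ⟨z, hz⟩, h4⟩ := (@Finset.mem_filter _ _ (_) _ _).mp hp1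
    obtain ⟨hpT, hc⟩ := Finset.mem_powersetCard.mp hp3
    refine ⟨z, ?_⟩
    have h1 := h4 z hz
    have h2 := hp2 z hz
    have h3 := Finset.card_le_card hz
    exact (Finset.eq_of_subset_of_card_le hz (by omega)).symm
  choose g hg using key
  have hinj : Function.Injective g := by
    intro p q h
    apply Subtype.ext
    rw [← hg p, ← hg q, h]
  refine ⟨(P2 I T).attach.image g, ?_, ?_, ?_⟩
  · rw [Finset.card_image_of_injective _ hinj, Finset.card_attach]
  · intro z hz
    obtain ⟨p, _, rfl⟩ := Finset.mem_image.mp hz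
    rw [hg p]
    exact p.2
  · intro z hz z' hz' h
    obtain ⟨p, _, rfl⟩ := Finset.mem_image.mp hz
    obtain ⟨q, _, rfl⟩ := Finset.mem_image.mp hz'
    rw [hg p, hg q] at h
    rw [Subtype.ext h]

end Pool.Agent.Helper4.NF
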